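import Mathlib

set_option autoImplicit false

open Polynomial

namespace Pool.Agent.TH147.N4

section Claim

open scoped IntermediateField.algebraAdjoinAdjoin

theorem integralElem_aux {F K : Type*} [Field F] [Field K] [Algebra F K] {v w : K}
    (hw : IsIntegral (Algebra.adjoin F ({v} : Set K)) w) :
    ((aeval v : F[X] →ₐ[F] K) : F[X] →+* K).IsIntegralElem w := by
  obtain ⟨p, hp, hpz⟩ := hw
  let v' : Algebra.adjoin F ({v} : Set K) := ⟨v, Algebra.self_mem_adjoin_singleton F v⟩
  let f : F[X] →+* Algebra.adjoin F ({v} : Set K) := (aeval v' : F[X] →ₐ[F] _)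
  have hcomp : (algebraMap (Algebra.adjoin F ({v} : Set K)) K).comp f
      = ((aeval v : F[X] →ₐ[F] K) : F[X] →+* K) := by
    refine RingHom.ext fun q => ?_
    change (algebraMap (Algebra.adjoin F ({v} : Set K)) K) (aeval v' q) = aeval v q
    rw [← aeval_algebraMap_apply]
    rfl
  have hsurj : Function.Surjective f := by
    intro x
    have hx := (Algebra.adjoin_singleton_eq_range_aeval F v).le x.2
    obtain ⟨q, hq⟩ := hx
    refine ⟨q, Subtype.ext ?_⟩
    have := RingHom.congr_fun hcomp q
    exact this.trans hq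
  have hl : p ∈ lifts f := (lifts_iff_coeff_lifts p).mpr fun n => hsurj _
  obtain ⟨q, hq, -, hqm⟩ := lifts_and_natDegree_eq_and_monic hl hp
  refine ⟨q, hqm, ?_⟩
  rw [← hcomp, ← eval₂_map, hq]
  exact hpz

theorem mem_range_of_isIntegral {F k : Type*} [Field F] [IsAlgClosed F] [Field k] [Algebra F k]
    {x : k} (hx : IsIntegral F x) : x ∈ Set.range (algebraMap F k) := by
  refine ⟨-(minpoly F x).coeff 0, ?_⟩
  have hq : (minpoly F x).leadingCoeff = 1 := minpoly.monic hx
  have h : (minpoly F x).degree = 1 :=
    IsAlgClosed.degree_eq_one_of_irreducible F (minpoly.irreducible hx)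
  have : aeval x (minpoly F x) = 0 := minpoly.aeval F x
  rw [eq_X_add_C_of_degree_eq_one h, hq, C_1, one_mul, aeval_add, aeval_X, aeval_C,
    add_eq_zero_iff_eq_neg] at this
  exact (map_neg (algebraMap F k) ((minpoly F x).coeff 0)).symm ▸ this.symm

attribute [local instance] Polynomial.algebra in
theorem descend {F k : Type*} [Field F] [IsAlgClosed F] [Field k] [Algebra F k] {P : k[X]}
    (hP : (mapRingHom (algebraMap F k)).IsIntegralElem P) :
    ∃ P0 : F[X], P0.map (algebraMap F k) = P := by
  have h : IsIntegral F[X] P := hP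
  have h2 : ∀ n, P.coeff n ∈ Set.range (algebraMap F k) := by
    intro n
    exact mem_range_of_isIntegral (IsIntegral.coeff h n)
  have : P ∈ lifts (algebraMap F k) := (lifts_iff_coeff_lifts P).mpr h2
  obtain ⟨q, hq⟩ := this
  exact ⟨q, hq⟩

/-- the claim -/
theorem claim {F k K : Type*} [Field F] [IsAlgClosed F] [Field k] [Field K] [Algebra F k]
    [Algebra k K] [Algebra F K] [IsScalarTower F k K] {v z : K} (hv : Transcendental k v)
    (hz : IsAlgebraic (IntermediateField.adjoin F ({v} : Set K)) z)
    (hzk : z ∈ IntermediateField.adjoin k ({v} : Set K)) :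
    z ∈ IntermediateField.adjoin F ({v} : Set K) := by
  have h1 : IsAlgebraic (Algebra.adjoin F ({v} : Set K)) z :=
    (IsFractionRing.isAlgebraic_iff (Algebra.adjoin F ({v} : Set K))
      (IntermediateField.adjoin F ({v} : Set K)) K).mpr hz
  obtain ⟨a, ha0, ha⟩ := h1.exists_integral_multiple
  have haF : (a : K) ∈ IntermediateField.adjoin F ({v} : Set K) :=
    IntermediateField.algebra_adjoin_le_adjoin F _ a.2
  have hak : (a : K) ∈ IntermediateField.adjoin k ({v} : Set K) := by
    have hle : IntermediateField.adjoin F ({v} : Set K) ≤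
        (IntermediateField.adjoin k ({v} : Set K)).restrictScalars F :=
      IntermediateField.adjoin_le_iff.mpr (IntermediateField.subset_adjoin k _)
    exact hle haF
  have ha0' : (a : K) ≠ 0 := fun h => ha0 (Subtype.ext h)
  have hsm : a • z = (a : K) * z := rfl
  rw [hsm] at ha
  have hφ0 := integralElem_aux ha
  set φ0 : F[X] →+* K := ((aeval v : F[X] →ₐ[F] K) : F[X] →+* K) with hφ0d
  set φ1 : k[X] →+* K := ((aeval v : k[X] →ₐ[k] K) : k[X] →+* K) with hφ1d
  have hcomp : φ1.comp (mapRingHom (algebraMap F k)) = φ0 := by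
    refine RingHom.ext fun q => ?_
    change aeval v (q.map (algebraMap F k)) = aeval v q
    exact aeval_map_algebraMap k v q
  have hφ1 : φ1.IsIntegralElem ((a : K) * z) := by
    rw [← hcomp] at hφ0
    exact hφ0.of_comp
  have hinj : Function.Injective φ1 := transcendental_iff_injective.mp hv
  -- the element of `k(v)`
  let e := RatFunc.algEquivOfTranscendental v hv
  let y : IntermediateField.adjoin k ({v} : Set K) := ⟨(a : K) * z, mul_mem hak hzk⟩
  let g : RatFunc k →+* K := (algebraMap (IntermediateField.adjoin k ({v} : Set K)) K).comp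
    (e : RatFunc k →+* _)
  have hg : g.comp (algebraMap k[X] (RatFunc k)) = φ1 := by
    refine RingHom.ext fun q => ?_
    change algebraMap (IntermediateField.adjoin k ({v} : Set K)) K
      (e (algebraMap k[X] (RatFunc k) q)) = aeval v q
    rw [RatFunc.algEquivOfTranscendental_algebraMap, ← aeval_algebraMap_apply]
    rfl
  have hgr : g (e.symm y) = (a : K) * z := by
    change algebraMap (IntermediateField.adjoin k ({v} : Set K)) K (e (e.symm y)) = _
    rw [AlgEquiv.apply_symm_apply]
    rfl
  have hr : IsIntegral k[X] (e.symm y) := by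
    have : (g.comp (algebraMap k[X] (RatFunc k))).IsIntegralElem (g (e.symm y)) := by
      rw [hg, hgr]; exact hφ1
    exact RingHom.IsIntegralElem.of_map g.injective this
  obtain ⟨P, hP⟩ := IsIntegrallyClosed.isIntegral_iff.mp hr
  have hP1 : φ1 P = (a : K) * z := by
    rw [← hgr, ← hP, ← hg]; rfl
  have hP2 : (mapRingHom (algebraMap F k)).IsIntegralElem P := by
    have : (φ1.comp (mapRingHom (algebraMap F k))).IsIntegralElem (φ1 P) := by
      rw [hcomp, hP1]; exact hφ0
    exact RingHom.IsIntegralElem.of_map hinj this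
  obtain ⟨P0, hP0⟩ := descend hP2
  have hP3 : (a : K) * z = aeval v P0 := by
    rw [← hP1, ← hP0]
    exact aeval_map_algebraMap k v P0
  have hmem : (a : K) * z ∈ IntermediateField.adjoin F ({v} : Set K) := by
    rw [hP3]
    refine IntermediateField.algebra_adjoin_le_adjoin F _ ?_
    rw [Algebra.adjoin_singleton_eq_range_aeval]
    exact ⟨P0, rfl⟩
  have hfin := mul_mem (inv_mem haF) hmem
  rwa [inv_mul_cancel_left₀ ha0'] at hfin

end Claim

/-- a linear change of variables keeps algebraic independence -/
theorem algebraicIndependent_change {F K : Type*} [Field F] [Field K] [Algebra F K]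
    {h0 h1 : K} (hind : AlgebraicIndependent F ![h0, h1]) {s t : F} (hst : s ≠ t) :
    AlgebraicIndependent F ![h0 + s • h1, h0 + t • h1] := by
  have hd : t - s ≠ 0 := sub_ne_zero.mpr hst.symm
  rw [AlgebraicIndependent, injective_iff_map_eq_zero]
  intro p hp
  let ψ : MvPolynomial (Fin 2) F →ₐ[F] MvPolynomial (Fin 2) F :=
    MvPolynomial.aeval ![MvPolynomial.X 0 + s • MvPolynomial.X 1,
      MvPolynomial.X 0 + t • MvPolynomial.X 1]
  let χ : MvPolynomial (Fin 2) F →ₐ[F] MvPolynomial (Fin 2) F :=
    MvPolynomial.aeval ![(t - s)⁻¹ • (t • MvPolynomial.X 0 - s • MvPolynomial.X 1),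
      (t - s)⁻¹ • (MvPolynomial.X 1 - MvPolynomial.X 0)]
  have hχψ : χ.comp ψ = AlgHom.id F _ := by
    refine MvPolynomial.algHom_ext fun i => ?_
    fin_cases i
    · simp only [ψ, χ, AlgHom.comp_apply, MvPolynomial.aeval_X, map_add, map_smul, AlgHom.id_apply,
        Matrix.cons_val_zero, Matrix.cons_val_one, Fin.zero_eta, Fin.isValue]
      rw [smul_comm s, ← smul_add]
      have : (t • MvPolynomial.X 0 - s • MvPolynomial.X 1
          + s • (MvPolynomial.X 1 - MvPolynomial.X 0) : MvPolynomial (Fin 2) F)
          = (t - s) • MvPolynomial.X 0 := by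
        rw [smul_sub, sub_smul]; abel
      rw [this, inv_smul_smul₀ hd]
    · simp only [ψ, χ, AlgHom.comp_apply, MvPolynomial.aeval_X, map_add, map_smul, AlgHom.id_apply,
        Matrix.cons_val_zero, Matrix.cons_val_one, Fin.mk_one, Fin.isValue]
      rw [smul_comm t, ← smul_add]
      have : (t • MvPolynomial.X 0 - s • MvPolynomial.X 1
          + t • (MvPolynomial.X 1 - MvPolynomial.X 0) : MvPolynomial (Fin 2) F)
          = (t - s) • MvPolynomial.X 1 := by
        rw [smul_sub, sub_smul]; abel
      rw [this, inv_smul_smul₀ hd]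
  have hcomp : (MvPolynomial.aeval ![h0, h1] : MvPolynomial (Fin 2) F →ₐ[F] K).comp ψ
      = MvPolynomial.aeval ![h0 + s • h1, h0 + t • h1] := by
    refine MvPolynomial.algHom_ext fun i => ?_
    fin_cases i
    · simp [ψ]
    · simp [ψ]
  have h1' : MvPolynomial.aeval ![h0, h1] (ψ p) = 0 := by
    rw [← hp, ← hcomp]; rfl
  have h2' : ψ p = 0 := (injective_iff_map_eq_zero _).mp hind _ h1'
  have h3' : χ (ψ p) = p := DFunLike.congr_fun hχψ p
  rw [← h3', h2', map_zero]

theorem transcendental_aux {F K : Type*} [Field F] [Field K] [Algebra F K]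
    {u v : K} (hind : AlgebraicIndependent F ![u, v]) :
    Transcendental (IntermediateField.adjoin F ({u} : Set K)) v := by
  intro halg
  have h1 : IsAlgebraic (Algebra.adjoin F ({u} : Set K)) v := by
    open scoped IntermediateField.algebraAdjoinAdjoin in
    exact (IsFractionRing.isAlgebraic_iff (Algebra.adjoin F ({u} : Set K))
      (IntermediateField.adjoin F ({u} : Set K)) K).mpr halg
  have h2 := hind.transcendental_adjoin (s := {0}) (i := 1) (by simp)
  have h3 : (![u, v] '' {0} : Set K) = {u} := by simp
  rw [h3] at h2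
  exact h2 h1

theorem ac {F K : Type*} [Field F] [IsAlgClosed F] [CharZero F] [Field K] [Algebra F K]
    {h0 h1 : K} (hind : AlgebraicIndependent F ![h0, h1])
    (hfin : FiniteDimensional (IntermediateField.adjoin F ({h0, h1} : Set K)) K) :
    {t : F | ∃ z : K, IsAlgebraic (IntermediateField.adjoin F ({h0 + t • h1} : Set K)) z ∧
      z ∉ IntermediateField.adjoin F ({h0 + t • h1} : Set K)}.Finite := by
  classical
  have : CharZero K := charZero_of_injective_algebraMap (algebraMap F K).injective
  have : Finite (IntermediateField (IntermediateField.adjoin F ({h0, h1} : Set K)) K) :=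
    Field.finite_intermediateField_of_exists_primitive_element _ _
      (Field.exists_primitive_element _ _)
  by_contra hS
  set S : Set F := {t : F | ∃ z : K,
      IsAlgebraic (IntermediateField.adjoin F ({h0 + t • h1} : Set K)) z ∧
      z ∉ IntermediateField.adjoin F ({h0 + t • h1} : Set K)} with hSd
  have hc : ∀ t ∈ S, ∃ z : K,
      IsAlgebraic (IntermediateField.adjoin F ({h0 + t • h1} : Set K)) z ∧
      z ∉ IntermediateField.adjoin F ({h0 + t • h1} : Set K) := fun t ht => ht
  choose! z hz using hc
  obtain ⟨s, hs, t, ht, hst, heq⟩ := Set.Infinite.exists_ne_map_eq_of_mapsTo (s := S)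
    (t := (Set.univ : Set (IntermediateField (IntermediateField.adjoin F ({h0, h1} : Set K)) K)))
    (f := fun t => IntermediateField.adjoin (IntermediateField.adjoin F ({h0, h1} : Set K))
      ({z t} : Set K)) hS (fun _ _ => Set.mem_univ _) Set.finite_univ
  have hind' := algebraicIndependent_change hind hst
  set us : K := h0 + s • h1 with hus
  set ut : K := h0 + t • h1 with hut
  have hd : t - s ≠ 0 := sub_ne_zero.mpr hst.symm
  -- the field `k`
  let k := IntermediateField.adjoin (IntermediateField.adjoin F ({us} : Set K)) ({z s} : Set K)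
  have hka : Algebra.IsAlgebraic (IntermediateField.adjoin F ({us} : Set K)) k :=
    IntermediateField.isAlgebraic_adjoin_simple (hz s hs).1.isIntegral
  have hv : Transcendental k ut := by
    intro halg
    exact transcendental_aux hind' (halg.restrictScalars (IntermediateField.adjoin F ({us} : Set K)))
  -- the subfield
  let L : Subfield K := (IntermediateField.adjoin k ({ut} : Set K)).toSubfield
  have hkL : ∀ x : K, x ∈ k → x ∈ L := fun x hx =>
    (IntermediateField.adjoin k ({ut} : Set K)).algebraMap_mem ⟨x, hx⟩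
  have husk : us ∈ k := k.algebraMap_mem
    ⟨us, IntermediateField.subset_adjoin F _ rfl⟩
  have hFk : ∀ x : F, algebraMap F K x ∈ k := fun x => k.algebraMap_mem
    ⟨algebraMap F K x, (IntermediateField.adjoin F ({us} : Set K)).algebraMap_mem x⟩
  have hzsk : z s ∈ k := IntermediateField.subset_adjoin _ _ rfl
  have hutL : ut ∈ L := IntermediateField.subset_adjoin k _ rfl
  have husL : us ∈ L := hkL _ husk
  have hFL : ∀ x : F, algebraMap F K x ∈ L := fun x => hkL _ (hFk x)
  have h1L : h1 ∈ L := by
    have : h1 = algebraMap F K (t - s)⁻¹ * (ut - us) := by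
      rw [hus, hut, add_sub_add_left_eq_sub, ← sub_smul, ← Algebra.smul_def, inv_smul_smul₀ hd]
    rw [this]
    exact mul_mem (hFL _) (sub_mem hutL husL)
  have h0L : h0 ∈ L := by
    have : h0 = us - algebraMap F K s * h1 := by
      rw [hus, ← Algebra.smul_def]; abel
    rw [this]
    exact sub_mem husL (mul_mem (hFL _) h1L)
  have hEL : (IntermediateField.adjoin F ({h0, h1} : Set K)).toSubfield ≤ L := by
    refine IntermediateField.adjoin_le_subfield F _ ?_ ?_
    · rintro _ ⟨x, rfl⟩; exact hFL x
    · rintro x (rfl | rfl)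
      · exact h0L
      · exact h1L
  have hEzL : (IntermediateField.adjoin (IntermediateField.adjoin F ({h0, h1} : Set K))
      ({z s} : Set K)).toSubfield ≤ L := by
    refine IntermediateField.adjoin_le_subfield _ _ ?_ ?_
    · rintro _ ⟨x, rfl⟩; exact hEL x.2
    · rintro x rfl
      exact hkL _ hzsk
  have hzt : z t ∈ IntermediateField.adjoin (IntermediateField.adjoin F ({h0, h1} : Set K))
      ({z s} : Set K) := by
    rw [heq]
    exact IntermediateField.subset_adjoin _ _ rfl
  have hztk : z t ∈ IntermediateField.adjoin k ({ut} : Set K) := hEzL hzt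
  have hst' : IsScalarTower F k K := IsScalarTower.of_algebraMap_eq fun x => rfl
  exact (hz t ht).2 (claim (F := F) (k := k) hv (hz t ht).1 hztk)

end Pool.Agent.TH147.N4
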